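import Pool.Agent.Helper1.UQ.St1

/-!
# Project UQ (MP_e3e162_pr), section 5: amenable averaging

From the finite density bound `StDEN` to the infinite-volume numbers `h8`, `f8`, `w8` of an amenable
transitive graph. Definitions: `Pool/Agent/Helper1/UQ/Defs.lean` (`te G I` = edges with an end in `I`,
`bd G I` = those with exactly one end in `I`, `ph G`, `sg I`, `pI G I = cm (ph G) (sg I)`, `pr`,
`eD`, `wI`, `hI`, `fI`, `w8`, `h8`, `f8`, `Amen`). Locally finite: `hlf`.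
-/

set_option autoImplicit false

open Finset

namespace Pool.Agent.Helper86.UQ

open Classical Pool.Agent.Helper30.RCU Pool.Agent.Helper1.UQ

universe u

/-- MTE (30 lines). Membership.
Proof. `{e | ∃ v ∈ e, v ∈ I}` is finite by `touch_finite` (Pool/Agent/Helper30/RCU/Geo.lean), so
`te G I` is its `toFinset`. `insert e (te G I) = te G I` for `e ∈ te G I`. -/
def StMTE : Prop := ∀ (V : Type u) (G : SimpleGraph V), (∀ v, (G.neighborSet v).Finite) →
    ∀ (I : Finset V) (e : G.edgeSet),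
    (e ∈ te G I ↔ ∃ v ∈ (e : Sym2 V), v ∈ I) ∧
    (e ∈ bd G I ↔ (∃ v ∈ (e : Sym2 V), v ∈ I) ∧ ∃ v ∈ (e : Sym2 V), v ∉ I)

/-- RKD (60 lines). The rank condition of StDEN, from StCOL.
Proof. Let `W` be the finset of end vertices of the edges of `te G I`, `U = W.image some`
(`Finset (Option V)`), so `ends (ph G) ω ⊆ U` for `ω ⊆ (te G I).map inl`
(`ph G (inl e) = (e : Sym2 V).map some`). StCOL with `σ = sg I`:
`rk (ph G) ω + (U.image (sg I)).card ≤ rk (pI G I) ω + U.card`. `U.card = W.card`,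
`W = (W ∩ I) ∪ (W \ I)`, `U.image (sg I) ⊇ (W ∩ I).image some`, so
`rk (ph G) ω ≤ rk (pI G I) ω + (W \ I).card`, and `(W \ I).card ≤ (bd G I).card`: for
`v ∈ W \ I` choose an edge `e ∈ te G I` with `v ∈ e`; it has an end in `I`, so `e ∈ bd G I`, and `v` is
its only end outside `I`, so the choice is injective (`Finset.card_le_card_of_injOn`). -/
def StRKD : Prop := ∀ (V : Type u) (G : SimpleGraph V), (∀ v, (G.neighborSet v).Finite) →
    ∀ (I : Finset V) (ω : Finset (GE G)), ω ⊆ (te G I).map Function.Embedding.inl →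
    rk (ph G) ω ≤ rk (pI G I) ω + (bd G I).card

/-- CNT (60 lines). Double counting, from StMTE.
Proof. `∑_{v ∈ I} ∑_{e ∈ te G {v}} a e = ∑_{e ∈ te G I} a e * #{v ∈ I | v ∈ e}`
(`e ∈ te G {v} ↔ v ∈ e`; `Finset.sum_comm'`, `Finset.sum_const`), and `#{v ∈ I | v ∈ e} = 2` for
`e ∈ te G I \ bd G I`, `= 1` for `e ∈ bd G I` (write `e = s(a, b)`, `a ≠ b` because `G.Adj a b`). So
the left sum equals `2 * ∑_{te I} a - ∑_{bd I} a` and `0 ≤ ∑_{bd I} a ≤ (bd G I).card`. -/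
def StCNT : Prop := ∀ (V : Type u) (G : SimpleGraph V), (∀ v, (G.neighborSet v).Finite) →
    ∀ (I : Finset V) (a : G.edgeSet → ℝ), (∀ e, 0 ≤ a e) → (∀ e, a e ≤ 1) →
    ∑ v ∈ I, ∑ e ∈ te G {v}, a e ≤ 2 * ∑ e ∈ te G I, a e ∧
    2 * ∑ e ∈ te G I, a e ≤ ∑ v ∈ I, ∑ e ∈ te G {v}, a e + ((bd G I).card : ℝ)

/-- BOX (60 lines). The density bound in the domain `I`, from StDEN and StRKD.
Proof. StDEN with `φ = ph G`, `σ = sg I`, `A = (te G I).map inl`, `Y = I.map inr`,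
`pa = pr G p' t`, `pb = pr G p 0`, `D = (bd G I).card` (rank condition: StRKD);
`A ∪ Y = (te G I).disjSum I` (`Finset.disjSum` is `map inl` disjoint union `map inr`),
`A = (te G I).disjSum ∅`; for `e ∈ te G I`: `insert e (te G I) = te G I`, so
`hI G p' t q I e = ex (pI G I) pa q (A ∪ Y) (oe (inl e))` and `fI G p q I e = ex (ph G) pb q A (oe (inl e))`;
`Finset.sum_map`, `Y.card = I.card`. -/
def StBOX : Prop := ∀ (V : Type u) (G : SimpleGraph V), (∀ v, (G.neighborSet v).Finite) →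
    ∀ (p p' t q : ℝ), 0 < p' → p' < p → p < 1 → 0 ≤ t → t < 1 → 1 ≤ q → ∀ I : Finset V,
    Real.log (p * (1 - p') / (p' * (1 - p))) * ∑ e ∈ te G I, hI G p' t q I e ≤
      Real.log (p * (1 - p') / (p' * (1 - p))) * (∑ e ∈ te G I, fI G p q I e) +
        (I.card : ℝ) * (-Real.log (1 - t)) + ((bd G I).card : ℝ) * Real.log q

/-- BDD (50 lines). Bounds. All finite-volume probabilities are in `[0,1]` (`ex_nonneg`, `ex_le` and
`ex_const` with `0 ≤ oe ≤ 1`), so the families are bounded and nonempty (`Finset V` is nonempty):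
`ciInf_le`, `le_ciInf`, `le_ciSup`, `ciSup_le`. -/
def StBDD : Prop := ∀ (V : Type u) (G : SimpleGraph V) (p t q : ℝ), 0 ≤ p → p ≤ 1 → 0 ≤ t → t ≤ 1 →
    1 ≤ q → ∀ e : G.edgeSet,
    (∀ I : Finset V, 0 ≤ fI G p q I e ∧ fI G p q I e ≤ f8 G p q e ∧
      0 ≤ wI G p q I e ∧ wI G p q I e ≤ 1 ∧ w8 G p q e ≤ wI G p q I e ∧
      0 ≤ hI G p t q I e ∧ hI G p t q I e ≤ 1 ∧ h8 G p t q e ≤ hI G p t q I e) ∧
    0 ≤ f8 G p q e ∧ f8 G p q e ≤ 1 ∧ 0 ≤ w8 G p q e ∧ w8 G p q e ≤ 1 ∧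
    0 ≤ h8 G p t q e ∧ h8 G p t q e ≤ 1

/-- INV (90 lines). Invariance under automorphisms, from StREL and StMTE.
Proof. Let `g : G ≃g G`, `I' = I.map g.toEquiv.toEmbedding` (image of `I`). StREL with
`j = (Equiv.sumCongr g.mapEdgeSet g.toEquiv).toEmbedding`, `τ = (optionCongr g.toEquiv).toEmbedding`,
`φ = pI G I`, `φ' = pI G I'` (resp. `ph G`, `ph G`), `p = p' = pr ..`: `sg I' (τ x) = τ (sg I x)`
(`g v ∈ I' ↔ v ∈ I`), so `pI G I' (j e) = (pI G I e).map τ`; `te G I' = (te G I).map g.mapEdgeSet`,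
so `(insert (g e) (te G I')).disjSum I' = ((insert e (te G I)).disjSum I).map j`, and
`oe (inl (g e)) (ω.map j) = oe (inl e) ω`. Hence `fI .. I' (g e) = fI .. I e`, the same for `wI`, `hI`
(compare `tau_iso` in Pool/Agent/Helper30/RCU/Main.lean). `I ↦ I'` is a bijection of `Finset V`, so the
infima and suprema agree (`Equiv.iInf_congr`, `Equiv.iSup_congr`, or `le_antisymm` and the inequality
for `g` and `g.symm`). -/
def StINV : Prop := ∀ (V : Type u) (G : SimpleGraph V), (∀ v, (G.neighborSet v).Finite) →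
    ∀ (p t q : ℝ), 0 ≤ p → p ≤ 1 → 0 ≤ t → t ≤ 1 → 1 ≤ q → ∀ (g : G ≃g G) (e : G.edgeSet),
    f8 G p q (g.mapEdgeSet e) = f8 G p q e ∧ w8 G p q (g.mapEdgeSet e) = w8 G p q e ∧
      h8 G p t q (g.mapEdgeSet e) = h8 G p t q e

/-- AMN (90 lines). Amenable averaging, from StBOX, StCNT, StBDD, StINV, StMTE.
Proof. Let `H = ∑_{te {o}} h8 G p' t q`, `F = ∑_{te {o}} f8 G p q`, `L = log (..) > 0`
(`p (1 - p') / (p' (1 - p)) > 1`), `τ = - log (1 - t) ≥ 0`. For every `v` take `g` with `g o = v`: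
`te G {v} = (te G {o}).map g.mapEdgeSet`, so by StINV `∑_{te {v}} h8 = H`, `∑_{te {v}} f8 = F`. For a
finite nonempty `I`, with `b = (bd G I).card`, `n = I.card`: StCNT (`a = h8`, then `a = f8`), StBDD and
StBOX give `L n H ≤ 2 L ∑_{te I} h8 ≤ 2 L ∑_{te I} hI ≤ 2 L ∑_{te I} fI + 2 n τ + 2 b log q
≤ L (n F + b) + 2 n τ + 2 b log q`. With `b ≤ ε n` (Amen) and division by `n`:
`L H ≤ L F + 2 τ + ε (L + 2 log q)` for every `ε > 0`; `le_of_forall_pos_le_add` (with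
`ε = δ / (L + 2 log q + 1)`). -/
def StAMN : Prop := ∀ (V : Type u) (G : SimpleGraph V), (∀ v, (G.neighborSet v).Finite) →
    (∀ x y : V, ∃ g : G ≃g G, g x = y) → Amen G →
    ∀ (p p' t q : ℝ), 0 < p' → p' < p → p < 1 → 0 ≤ t → t < 1 → 1 ≤ q → ∀ o : V,
    Real.log (p * (1 - p') / (p' * (1 - p))) * ∑ e ∈ te G {o}, h8 G p' t q e ≤
      Real.log (p * (1 - p') / (p' * (1 - p))) * (∑ e ∈ te G {o}, f8 G p q e) +
        2 * (-Real.log (1 - t))

/-- SPE (25 lines). The special edge, from StAMN.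
Proof. With `L = 4 / γ * τ`, `τ = - log (1 - t) > 0`: StAMN divided by `L > 0` gives
`∑ h8 ≤ ∑ f8 + γ / 2 ≤ ∑ w8 - γ / 2`. If `h8 e > w8 e - γ / (2 m)` for all `e ∈ te {o}`,
`m = (te {o}).card` (`m > 0`, otherwise `0 + γ ≤ 0`), then `∑ h8 > ∑ w8 - γ / 2`
(`Finset.sum_lt_sum_of_nonempty`), a contradiction. -/
def StSPE : Prop := ∀ (V : Type u) (G : SimpleGraph V), (∀ v, (G.neighborSet v).Finite) →
    (∀ x y : V, ∃ g : G ≃g G, g x = y) → Amen G →
    ∀ (p p' t q γ : ℝ), 0 < p' → p' < p → p < 1 → 0 < t → t < 1 → 1 ≤ q → 0 < γ → ∀ o : V,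
    ∑ e ∈ te G {o}, f8 G p q e + γ ≤ ∑ e ∈ te G {o}, w8 G p q e →
    Real.log (p * (1 - p') / (p' * (1 - p))) = 4 / γ * (-Real.log (1 - t)) →
    ∃ e ∈ te G {o}, h8 G p' t q e ≤ w8 G p q e - γ / (2 * ((te G {o}).card : ℝ))

end Pool.Agent.Helper86.UQ
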