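import Pool.Agent.Helper1.UQ.St2

/-! # Project UQ, module CLG: upper bound for the closed probability -/

set_option autoImplicit false

open Finset

namespace Pool.Agent.Helper86.UQ

open Classical Pool.Agent.Helper30.RCU Pool.Agent.Helper1.UQ

universe u

section

variable {V : Type u} {G : SimpleGraph V}

lemma mem_disjSum_empty {A : Finset G.edgeSet} {a : GE G} :
    a ∈ A.disjSum (∅ : Finset V) ↔ ∃ e ∈ A, a = Sum.inl e := by
  rw [Finset.mem_disjSum]
  constructor
  · rintro (⟨e, he, rfl⟩ | ⟨v, hv, -⟩)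
    · exact ⟨e, he, rfl⟩
    · exact absurd hv (Finset.notMem_empty v)
  · rintro ⟨e, he, rfl⟩
    exact Or.inl ⟨e, he, rfl⟩

/-- more edges, smaller expectation of an antitone function -/
lemma ex_anti_sub {V' ι : Type u} {φ : ι → Sym2 V'} {p : ι → ℝ} {q : ℝ} (hp : ∀ e, 0 ≤ p e)
    (hp1 : ∀ e, p e ≤ 1) (hq : 1 ≤ q) {E E' : Finset ι} (h : E ⊆ E') {N : Finset ι → ℝ}
    (hN : Antitone N) : ex φ p q E' N ≤ ex φ p q E N := by
  have h1 := ex_union_anti (φ := φ) hp hp1 hq E (E' \ E) hN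
  rw [Finset.union_sdiff_of_subset h] at h1
  exact h1

/-- more edges, larger expectation of a monotone function -/
lemma ex_mono_sub {V' ι : Type u} {φ : ι → Sym2 V'} {p : ι → ℝ} {q : ℝ} (hp : ∀ e, 0 ≤ p e)
    (hp1 : ∀ e, p e ≤ 1) (hq : 1 ≤ q) {E E' : Finset ι} (h : E ⊆ E') {f : Finset ι → ℝ}
    (hf0 : ∀ ω, 0 ≤ f ω) (hf : Monotone f) : ex φ p q E f ≤ ex φ p q E' f := by
  have h1 := ex_union_mono (φ := φ) hp hp1 hq E (E' \ E) hf0 hf
  rw [Finset.union_sdiff_of_subset h] at h1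
  exact h1

lemma image_inst {ι : Type u} (i1 i2 : DecidableEq ι) (f : ℕ → ι) (k : ℕ) :
    @Finset.image _ _ i1 f (range k) = @Finset.image _ _ i2 f (range k) := by
  rw [Subsingleton.elim i1 i2]

lemma nt_nonneg {ι : Type u} (T ω : Finset ι) : 0 ≤ nt T ω := by
  unfold nt
  split_ifs
  · exact zero_le_one
  · exact le_rfl

lemma nt_le_one {ι : Type u} (T ω : Finset ι) : nt T ω ≤ 1 := by
  unfold nt
  split_ifs
  · exact le_rfl
  · exact zero_le_one

lemma nt_anti {ι : Type u} (T : Finset ι) : Antitone (nt T) := by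
  intro ω ω' h
  unfold nt
  by_cases h' : Disjoint ω' T
  · rw [if_pos h', if_pos (h'.mono_left h)]
  · rw [if_neg h']
    split_ifs
    · exact zero_le_one
    · exact le_rfl

lemma mk_mem_of_dist (G : SimpleGraph V) (e : G.edgeSet) {a b : V} (ha : a ∈ (e : Sym2 V))
    (hb : b ∈ (e : Sym2 V)) : G.dist a b ≤ 1 := by
  by_cases hab : a = b
  · rw [hab, SimpleGraph.dist_self]
    exact Nat.zero_le _
  · have h1 : (e : Sym2 V) = s(a, b) := (Sym2.mem_and_mem_iff hab).mp ⟨ha, hb⟩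
    have h2 : G.Adj a b := by
      rw [← SimpleGraph.mem_edgeSet, ← h1]
      exact e.2
    rw [SimpleGraph.dist_eq_one_iff_adj.mpr h2]

/-- an edge without an end in `I` is a loop after identification -/
lemma pI_loop {I : Finset V} {e : G.edgeSet} (h : ∀ v ∈ (e : Sym2 V), v ∉ I) :
    pI G I (Sum.inl e) = s(none, none) := by
  unfold pI cm ph
  simp only [Sum.elim_inl]
  rcases e with ⟨e, he⟩
  induction e using Sym2.ind with
  | _ a b =>
    have ha : a ∉ I := h a (Sym2.mem_mk_left a b)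
    have hb : b ∉ I := h b (Sym2.mem_mk_right a b)
    simp only [Sym2.map_mk]
    rw [sg_some_of_notMem ha, sg_some_of_notMem hb]

end

theorem hCLG (hMIX : StMIX.{u}) : StCLG.{u} := by
  intro V G hG hlf p t q hp hp1 ht ht1 hq x n k m ρ U s hs alow aup hal hau hau1 hm hρ hn u hu hw
  set Λ : Finset V := bl G x n with hΛ
  have hp0 : ∀ e : GE G, 0 ≤ pr G p t e := pr_nonneg hp.le ht
  have hp1' : ∀ e : GE G, pr G p t e ≤ 1 := pr_le_one hp1.le ht1
  have hp0z : ∀ e : GE G, 0 ≤ pr G p 0 e := pr_nonneg hp.le le_rfl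
  have hp1z : ∀ e : GE G, pr G p 0 e ≤ 1 := pr_le_one hp1.le zero_le_one
  have h1 : ∀ T : Finset (GE G), cl (pI G Λ) (pr G p t) q ((te G Λ).disjSum U) T ≤
      cl (pI G Λ) (pr G p 0) q ((te G Λ).disjSum ∅) T := by
    intro T
    have h0 : (te G Λ).disjSum (∅ : Finset V) ⊆ (te G Λ).disjSum U :=
      Finset.disjSum_mono le_rfl (Finset.empty_subset _)
    have h2 := ex_anti_sub (φ := pI G Λ) hp0 hp1' hq h0 (nt_anti T)
    refine h2.trans (le_of_eq ?_)
    refine ex_congr_p (fun e he => ?_) _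
    obtain ⟨e', -, rfl⟩ := mem_disjSum_empty.mp he
    rfl
  refine (h1 _).trans ?_
  have hball : ∀ j < k, bl G (u j) m ⊆ Λ := by
    intro j hj v hv
    rw [mem_bl hG hlf] at hv
    rw [hΛ, mem_bl hG hlf]
    have h3 : G.dist x v ≤ G.dist x (u j) + G.dist (u j) v := hG.dist_triangle
    have h4 : j * ρ ≤ k * ρ := Nat.mul_le_mul_right ρ hj.le
    rw [hu j hj] at h3
    omega
  have hself : ∀ j, s (u j) ∈ te G (bl G (u j) m) := by
    intro j
    rw [mem_te hlf]
    refine ⟨u j, hs (u j), ?_⟩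
    rw [mem_bl hG hlf, SimpleGraph.dist_self]
    omega
  have hcm : ∀ j < k, cm (pI G Λ) (sg (bl G (u j) m)) = pI G (bl G (u j) m) := by
    intro j hj
    exact cm_pI (hball j hj)
  rw [image_inst _ (fun a b => propDecidable (a = b))]
  refine hMIX (Option V) (Option V) (GE G) (pI G Λ) (pr G p 0) q hp0z hp1z hq
    ((te G Λ).disjSum ∅) k (fun j => Sum.inl (s (u j)))
    (fun j => (te G (bl G (u j) m)).disjSum ∅) (fun j => sg (bl G (u j) m)) alow aup hal hau hau1 ?_
  intro j hj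
  refine ⟨mem_disjSum_empty.mpr ⟨_, hself j, rfl⟩, ?_, ?_, ?_, ?_, ?_⟩
  · exact Finset.disjSum_mono (te_mono hlf (hball j hj)) le_rfl
  · intro a ha
    replace ha := (@Finset.mem_sdiff _ (fun a b => propDecidable (a = b)) _ _ _).mp ha
    obtain ⟨e, he, rfl⟩ := mem_disjSum_empty.mp ha.1
    have he2 : e ∉ te G (bl G (u j) m) := fun h => ha.2 (mem_disjSum_empty.mpr ⟨e, h, rfl⟩)
    refine ⟨none, ?_⟩
    have h3 : (pI G Λ (Sum.inl e)).map (sg (bl G (u j) m)) =
        cm (pI G Λ) (sg (bl G (u j) m)) (Sum.inl e) := rfl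
    rw [h3, hcm j hj]
    refine pI_loop fun v hv hvI => he2 ?_
    rw [mem_te hlf]
    exact ⟨v, hv, hvI⟩
  · have h3 : ex (cm (pI G Λ) (sg (bl G (u j) m))) (pr G p 0) q
        ((te G (bl G (u j) m)).disjSum ∅) (fun ω => 1 - oe (Sum.inl (s (u j))) ω) =
        1 - wI G p q (bl G (u j) m) (s (u j)) := by
      rw [hcm j hj, ex_sub, ex_const hp0z hp1z hq]
      unfold Pool.Agent.Helper1.UQ.wI eD
      rw [Finset.insert_eq_self.mpr (hself j)]
    show alow ≤ ex (cm (pI G Λ) (sg (bl G (u j) m))) (pr G p 0) q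
        ((te G (bl G (u j) m)).disjSum ∅) (fun ω => 1 - oe (Sum.inl (s (u j))) ω)
    rw [h3]
    exact (hw j hj).1
  · have h3 : ex (pI G Λ) (pr G p 0) q
        ((te G Λ).disjSum ∅) (fun ω => 1 - oe (Sum.inl (s (u j))) ω) =
        1 - wI G p q Λ (s (u j)) := by
      rw [ex_sub, ex_const hp0z hp1z hq]
      unfold Pool.Agent.Helper1.UQ.wI eD
      rw [Finset.insert_eq_self.mpr (te_mono hlf (hball j hj) (hself j))]
    rw [h3]
    exact (hw j hj).2
  · intro i hi hij h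
    obtain ⟨e, he, h3⟩ := mem_disjSum_empty.mp h
    have h4 : s (u i) = e := Sum.inl_injective h3
    rw [← h4, mem_te hlf] at he
    obtain ⟨v, hv, hvI⟩ := he
    rw [mem_bl hG hlf] at hvI
    have h5 : G.dist v (u i) ≤ 1 := mk_mem_of_dist G (s (u i)) hv (hs (u i))
    have h6 : G.dist (u j) (u i) ≤ G.dist (u j) v + G.dist v (u i) := hG.dist_triangle
    have h7 : G.dist x (u i) ≤ G.dist x (u j) + G.dist (u j) (u i) := hG.dist_triangle
    have h8 : G.dist x (u j) ≤ G.dist x (u i) + G.dist (u i) (u j) := hG.dist_triangle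
    rw [SimpleGraph.dist_comm (u := u i) (v := u j)] at h8
    rw [hu i hi, hu j hj] at h7 h8
    rcases lt_or_gt_of_ne hij with h9 | h9
    · have h10 : (i + 1) * ρ ≤ j * ρ := Nat.mul_le_mul_right ρ h9
      rw [Nat.add_mul, Nat.one_mul] at h10
      omega
    · have h10 : (j + 1) * ρ ≤ i * ρ := Nat.mul_le_mul_right ρ h9
      rw [Nat.add_mul, Nat.one_mul] at h10
      omega

end Pool.Agent.Helper86.UQ
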