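import Pool.Agent.Helper1.UQ.St2
import Pool.Agent.Helper86.UQ.St5
import Pool.Agent.Helper61.UQ.M_MTE
import Pool.Agent.Helper61.UQ.M_AMN
import Pool.Agent.Helper99.UQ.M_RKD
import Pool.Agent.Helper10.UQ.M_CNT
import Pool.Agent.Helper29.UQ.M_BOX
import Pool.Agent.Helper22.UQ.M_BDD
import Pool.Agent.Helper75.UQ.M_INV
import Pool.Agent.Helper7.UQ.M_SPE
import Pool.Agent.Helper58.UQ.M_DEN
import Pool.Agent.Helper84.UQ.M_COL
import Pool.Agent.Helper78.UQ.M_REL
import Pool.Agent.Helper15.UQ.M_RKM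

/-! # Project UQ, section 5: assembly (amenable averaging) -/

set_option autoImplicit false

open Finset

namespace Pool.Agent.Helper86.UQ

open Classical Pool.Agent.Helper30.RCU Pool.Agent.Helper1.UQ

universe u

/-- section 5 in the notation of this directory -/
theorem tAMN (hDEN : StDEN.{u}) (hCOL : StCOL.{u}) (hREL : StREL.{u}) : StAMN.{u} :=
  Pool.Agent.Helper61.UQ.hAMN Pool.Agent.Helper61.UQ.hMTE
    (Pool.Agent.Helper10.UQ.hCNT Pool.Agent.Helper61.UQ.hMTE)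
    (Pool.Agent.Helper29.UQ.hBOX hDEN
      (Pool.Agent.Helper99.UQ.hRKD hCOL Pool.Agent.Helper61.UQ.hMTE))
    Pool.Agent.Helper22.UQ.hBDD (Pool.Agent.Helper75.UQ.hINV Pool.Agent.Helper61.UQ.hMTE hREL)

/-- section 5, the special edge -/
theorem tSPE (hDEN : StDEN.{u}) (hCOL : StCOL.{u}) (hREL : StREL.{u}) : StSPE.{u} :=
  Pool.Agent.Helper7.UQ.hSPE (tAMN hDEN hCOL hREL)

/-- section 5 in the notation of helper1 -/
theorem tAMN1 (hDEN : StDEN.{u}) (hCOL : StCOL.{u}) (hREL : StREL.{u}) :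
    Pool.Agent.Helper1.UQ.StAMN.{u} := by
  intro V G hG hlf htr ham p p' t q hp' hpp hp1 ht ht1 hq o
  have h := tAMN hDEN hCOL hREL V G hlf htr ham p p' t q hp' hpp hp1 ht.le ht1 hq o
  unfold rr
  rw [Finset.sum_sub_distrib, mul_sub]
  linarith

/-- section 5, complete, in the notation of helper1 -/
theorem hAMN1 : Pool.Agent.Helper1.UQ.StAMN.{u} :=
  tAMN1 (Pool.Agent.Helper58.UQ.hDEN Pool.Agent.Helper15.UQ.hRKM)
    (Pool.Agent.Helper84.UQ.hCOL Pool.Agent.Helper15.UQ.hRKM) Pool.Agent.Helper78.UQ.hREL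

end Pool.Agent.Helper86.UQ
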